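import Pool.Agent.Helper74K9.PS.St
import Pool.Agent.Helper83K9.CF.Farkas

/-! # [LPC]: linear programming with a cost function on the cliques -/

set_option autoImplicit false

namespace Pool.Agent.Helper87K9.PS2

open Finset Pool.Agent.Helper83K9.CF Pool.Agent.Helper74K9.PS

/-- the feasible functions for the cost `c` on the cliques with at most `t` vertices and `ψ` on the
first window -/
structure FeasC (q : ℕ → ℕ → Prop) (k N t : ℕ) (c : Finset ℕ → ℝ) (ψ : ℝ) (f : ℕ → ℝ) : Prop where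
  nonneg : ∀ v, 0 ≤ f v
  first : ∀ v, v < k → f v ≤ ψ
  le : ∀ Y, Cq q k N Y → Y.card ≤ t → ∑ x ∈ Y, f x ≤ c Y

namespace LpcL

variable {q : ℕ → ℕ → Prop} {k N t : ℕ} {c : Finset ℕ → ℝ} {ψ : ℝ} {f : ℕ → ℝ}

/-- the feasible functions vanishing outside `range N` -/
def PC (q : ℕ → ℕ → Prop) (k N t : ℕ) (c : Finset ℕ → ℝ) (ψ : ℝ) : Set (ℕ → ℝ) :=
  {f | FeasC q k N t c ψ f ∧ ∀ v, N ≤ v → f v = 0}

theorem le_c (ht : 1 ≤ t) (hf : f ∈ PC q k N t c ψ) (v : ℕ) (hv : v < N) : f v ≤ c {v} := by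
  have h := hf.1.le {v} ⟨⟨v, by simp⟩, by simpa using hv, by
    intro x hx y hy hxy
    rw [Finset.mem_singleton] at hx hy
    omega⟩ (by simpa using ht)
  simpa using h

theorem compact (ht : 1 ≤ t) : IsCompact (PC q k N t c ψ) := by
  have h1 : IsCompact (Set.pi Set.univ (fun v : ℕ => Set.Icc (0 : ℝ) (if v < N then c {v} else 0))) :=
    isCompact_univ_pi fun _ => isCompact_Icc
  have h2 : IsClosed (PC q k N t c ψ) := by
    have e : PC q k N t c ψ =
        (⋂ v, {f : ℕ → ℝ | 0 ≤ f v}) ∩ (⋂ v, ⋂ (_ : v < k), {f : ℕ → ℝ | f v ≤ ψ}) ∩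
        (⋂ Y : Finset ℕ, ⋂ (_ : Cq q k N Y), ⋂ (_ : Y.card ≤ t),
          {f : ℕ → ℝ | ∑ x ∈ Y, f x ≤ c Y}) ∩
        (⋂ v, ⋂ (_ : N ≤ v), {f : ℕ → ℝ | f v = 0}) := by
      ext f
      simp only [PC, Set.mem_ofPred_eq, Set.mem_inter_iff, Set.mem_iInter]
      constructor
      · rintro ⟨⟨a, b, c⟩, d⟩
        exact ⟨⟨⟨a, b⟩, c⟩, d⟩
      · rintro ⟨⟨⟨a, b⟩, c⟩, d⟩
        exact ⟨⟨a, b, c⟩, d⟩
    rw [e]
    refine ((IsClosed.inter ?_ ?_).inter ?_).inter ?_
    · exact isClosed_iInter fun v => isClosed_le continuous_const (continuous_apply v)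
    · exact isClosed_iInter fun v => isClosed_iInter fun _ =>
        isClosed_le (continuous_apply v) continuous_const
    · exact isClosed_iInter fun Y => isClosed_iInter fun _ => isClosed_iInter fun _ =>
        isClosed_le (continuous_finsetSum _ fun x _ => continuous_apply x) continuous_const
    · exact isClosed_iInter fun v => isClosed_iInter fun _ =>
        isClosed_eq (continuous_apply v) continuous_const
  refine h1.of_isClosed_subset h2 fun f hf => ?_
  intro v _
  refine ⟨hf.1.nonneg v, ?_⟩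
  show f v ≤ if v < N then c {v} else 0
  split_ifs with hv
  · exact le_c ht hf v hv
  · exact (hf.2 v (not_lt.1 hv)).le

theorem exists_max (ht : 1 ≤ t) (hψ : 0 ≤ ψ) (hc : ∀ Y, 0 ≤ c Y) (μ : ℕ → ℝ) :
    ∃ f ∈ PC q k N t c ψ,
      ∀ g ∈ PC q k N t c ψ, ∑ v ∈ range N, μ v * g v ≤ ∑ v ∈ range N, μ v * f v := by
  have h0 : (fun _ => 0 : ℕ → ℝ) ∈ PC q k N t c ψ :=
    ⟨⟨fun _ => le_rfl, fun _ _ => hψ, fun Y _ _ => by simpa using hc Y⟩, fun _ _ => rfl⟩
  obtain ⟨f, hf, hmax⟩ := (compact (q := q) (k := k) (N := N) (c := c) (ψ := ψ) ht).exists_isMaxOn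
    ⟨_, h0⟩ (f := fun f : ℕ → ℝ => ∑ v ∈ range N, μ v * f v)
    (Continuous.continuousOn (continuous_finsetSum _ fun v _ =>
      continuous_const.mul (continuous_apply v)))
  exact ⟨f, hf, fun g hg => hmax hg⟩

/-- the directions -/
theorem direction (μ : ℕ → ℝ) (hf : f ∈ PC q k N t c ψ)
    (hmax : ∀ g ∈ PC q k N t c ψ, ∑ v ∈ range N, μ v * g v ≤ ∑ v ∈ range N, μ v * f v)
    (σ : ℕ → ℝ) (h0 : ∀ v, v < N → f v = 0 → σ v ≤ 0) (hN : ∀ v, N ≤ v → σ v = 0)
    (h1 : ∀ v, v < N → v < k → f v = ψ → 0 ≤ σ v)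
    (h2 : ∀ Y, Cq q k N Y → Y.card ≤ t → ∑ v ∈ Y, f v = c Y → 0 ≤ ∑ v ∈ Y, σ v) :
    0 ≤ ∑ v ∈ range N, μ v * σ v := by
  classical
  -- small steps are feasible
  have ev : ∀ᶠ ε : ℝ in nhdsWithin 0 (Set.Ioi 0), (fun v => f v - ε * σ v) ∈ PC q k N t c ψ := by
    have lin : ∀ a b c : ℝ, a < c → ∀ᶠ ε : ℝ in nhdsWithin 0 (Set.Ioi 0), a - ε * b < c := by
      intro a b c hac
      have : Filter.Tendsto (fun ε : ℝ => a - ε * b) (nhdsWithin 0 (Set.Ioi 0)) (nhds (a - 0 * b)) :=
        ((continuous_const.sub (continuous_id.mul continuous_const)).tendsto 0).mono_left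
          nhdsWithin_le_nhds
      exact this.eventually_lt_const (by simpa using hac)
    have lin' : ∀ a b : ℝ, 0 < a → ∀ᶠ ε : ℝ in nhdsWithin 0 (Set.Ioi 0), 0 ≤ a - ε * b := by
      intro a b ha
      have := lin (-a) (-b) 0 (by linarith)
      filter_upwards [this] with ε hε
      linarith
    have A : ∀ᶠ ε : ℝ in nhdsWithin 0 (Set.Ioi 0), ∀ v ∈ range N, 0 ≤ f v - ε * σ v := by
      rw [Filter.eventually_all_finset]
      intro v hvN
      rcases (hf.1.nonneg v).lt_or_eq with hv | hv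
      · exact lin' _ _ hv
      · filter_upwards [self_mem_nhdsWithin] with ε hε
        have h3 := h0 v (Finset.mem_range.1 hvN) hv.symm
        have h4 : ε * σ v ≤ 0 := mul_nonpos_of_nonneg_of_nonpos (Set.mem_Ioi.1 hε).le h3
        linarith
    have B : ∀ᶠ ε : ℝ in nhdsWithin 0 (Set.Ioi 0), ∀ v ∈ range k, f v - ε * σ v ≤ ψ := by
      rw [Filter.eventually_all_finset]
      intro v hv
      have hvk := Finset.mem_range.1 hv
      rcases (hf.1.first v hvk).lt_or_eq with h | h
      · filter_upwards [lin (f v) (σ v) ψ h] with ε hε using hε.le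
      · filter_upwards [self_mem_nhdsWithin] with ε hε
        have h3 : 0 ≤ σ v := by
          rcases Nat.lt_or_ge v N with hvN | hvN
          · exact h1 v hvN hvk h
          · exact (hN v hvN).ge
        have h4 : 0 ≤ ε * σ v := mul_nonneg (Set.mem_Ioi.1 hε).le h3
        linarith
    have C : ∀ᶠ ε : ℝ in nhdsWithin 0 (Set.Ioi 0), ∀ Y ∈ (range N).powerset,
        Cq q k N Y → Y.card ≤ t → ∑ x ∈ Y, (f x - ε * σ x) ≤ c Y := by
      rw [Filter.eventually_all_finset]
      intro Y _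
      by_cases hY : Cq q k N Y ∧ Y.card ≤ t
      · rcases (hf.1.le Y hY.1 hY.2).lt_or_eq with h | h
        · filter_upwards [lin _ (∑ x ∈ Y, σ x) _ h] with ε hε _ _
          rw [Finset.sum_sub_distrib, ← Finset.mul_sum]
          exact hε.le
        · filter_upwards [self_mem_nhdsWithin] with ε hε _ _
          rw [Finset.sum_sub_distrib, ← Finset.mul_sum, h]
          have h4 := h2 Y hY.1 hY.2 h
          have h5 : 0 ≤ ε * ∑ x ∈ Y, σ x := mul_nonneg (Set.mem_Ioi.1 hε).le h4
          linarith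
      · refine Filter.Eventually.of_forall fun ε h3 h4 => absurd ⟨h3, h4⟩ hY
    filter_upwards [A, B, C] with ε hA hB hC
    refine ⟨⟨?_, ?_, ?_⟩, ?_⟩
    · intro v
      rcases Nat.lt_or_ge v N with hv | hv
      · exact hA v (Finset.mem_range.2 hv)
      · show 0 ≤ f v - ε * σ v
        rw [hf.2 v hv, hN v hv]; simp
    · intro v hv
      exact hB v (Finset.mem_range.2 hv)
    · intro Y hY hc
      exact hC Y (Finset.mem_powerset.2 hY.2.1) hY hc
    · intro v hv
      show f v - ε * σ v = 0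
      rw [hf.2 v hv, hN v hv]; simp
  obtain ⟨ε, hε, hpos⟩ := (ev.and self_mem_nhdsWithin).exists
  have hε0 : 0 < ε := hpos
  have h3 := hmax _ hε
  have h4 : ∑ v ∈ range N, μ v * (f v - ε * σ v) =
      ∑ v ∈ range N, μ v * f v - ε * ∑ v ∈ range N, μ v * σ v := by
    rw [Finset.mul_sum, ← Finset.sum_sub_distrib]
    exact Finset.sum_congr rfl fun v _ => by ring
  rw [h4] at h3
  have h5 : 0 ≤ ε * ∑ v ∈ range N, μ v * σ v := by linarith
  exact nonneg_of_mul_nonneg_right h5 hε0

end LpcL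

open LpcL

/-- linear programming duality and complementary slackness -/
theorem lpc (t k N : ℕ) (q : ℕ → ℕ → Prop) (μ : ℕ → ℝ) (c : Finset ℕ → ℝ) (ψ : ℝ) (ht : 1 ≤ t)
    (hψ : 0 ≤ ψ) (hc : ∀ Y, 0 ≤ c Y) :
    ∃ (f : ℕ → ℝ) (w : Finset ℕ → ℝ) (lam : ℕ → ℝ), FeasC q k N t c ψ f ∧
      (∀ v, N ≤ v → f v = 0) ∧ (∀ Y, 0 ≤ w Y) ∧
      (∀ Y, w Y ≠ 0 → Cq q k N Y ∧ Y.card ≤ t ∧ ∑ x ∈ Y, f x = c Y) ∧
      (∀ v, 0 ≤ lam v) ∧ (∀ v, lam v ≠ 0 → v < N ∧ v < k ∧ f v = ψ) ∧
      (∀ v, v < N → μ v ≤ load N w v + lam v) ∧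
      ∀ v, v < N → 0 < f v → load N w v + lam v = μ v := by
  classical
  obtain ⟨f, hf, hmax⟩ := exists_max (q := q) (k := k) (N := N) (c := c) (ψ := ψ) ht hψ hc μ
  set TT : Finset (Finset ℕ) := (range N).powerset.filter
    (fun Y => Cq q k N Y ∧ Y.card ≤ t ∧ ∑ x ∈ Y, f x = c Y) with hTT
  set LL : Finset ℕ := (range N).filter (fun v => v < k ∧ f v = ψ) with hLL
  set ZZ : Finset ℕ := (range N).filter (fun v => f v = 0) with hZZ
  have hTV : ∀ Y ∈ TT, Y ⊆ range N := fun Y hY => Finset.mem_powerset.1 (Finset.mem_filter.1 hY).1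
  obtain ⟨ω, hω0, hω⟩ := farkas (range N) (TT ⊕ (LL ⊕ ZZ))
    (fun v i => Sum.elim (fun Y : TT => if (v : ℕ) ∈ (Y : Finset ℕ) then (1 : ℝ) else 0)
      (Sum.elim (fun u : LL => if (v : ℕ) = (u : ℕ) then (1 : ℝ) else 0)
        (fun u : ZZ => if (v : ℕ) = (u : ℕ) then (-1 : ℝ) else 0)) i)
    (fun v => μ v) (fun _ => False) (by
      intro σ' _ hσ'
      set σ : ℕ → ℝ := fun v => if h : v ∈ range N then σ' ⟨v, h⟩ else 0 with hσ
      have e0 : ∀ (g : ℕ → ℝ), ∑ v : range N, σ' v * g v = ∑ v ∈ range N, σ v * g v := by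
        intro g
        rw [← Finset.sum_coe_sort (range N) (fun v => σ v * g v)]
        refine Finset.sum_congr rfl fun v _ => ?_
        rw [hσ]
        simp only [v.2, dif_pos]
      have e1 : ∀ v, v ∉ range N → σ v = 0 := fun v hv => by
        rw [hσ]; simp only [hv, dif_neg, not_false_iff]
      have e2 : ∀ (U : Finset ℕ), U ⊆ range N →
          ∑ v ∈ range N, σ v * (if v ∈ U then (1 : ℝ) else 0) = ∑ v ∈ U, σ v := by
        intro U hU
        simp only [mul_ite, mul_one, mul_zero]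
        rw [← Finset.sum_filter]
        congr 1
        ext v
        simp only [Finset.mem_filter]
        exact ⟨fun h => h.2, fun h => ⟨hU h, h⟩⟩
      have key := direction μ hf hmax σ
        (fun v hvN hv0 => by
          have h3 := hσ' (Sum.inr (Sum.inr ⟨v, Finset.mem_filter.2 ⟨Finset.mem_range.2 hvN, hv0⟩⟩))
          simp only [Sum.elim_inr] at h3
          rw [e0 (fun u => if u = v then (-1 : ℝ) else 0)] at h3
          have h4 := e2 {v} (by simpa using hvN)
          simp only [Finset.mem_singleton, Finset.sum_singleton] at h4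
          have h5 : ∑ u ∈ range N, σ u * (if u = v then (-1 : ℝ) else 0) =
              -∑ u ∈ range N, σ u * (if u = v then (1 : ℝ) else 0) := by
            rw [← Finset.sum_neg_distrib]
            refine Finset.sum_congr rfl fun u _ => ?_
            split_ifs <;> ring
          rw [h5, h4] at h3
          linarith)
        (fun v hv => e1 v fun h => by
          have := Finset.mem_range.1 h
          omega)
        (fun v hvN hvk hv1 => by
          have h3 := hσ' (Sum.inr (Sum.inl ⟨v, Finset.mem_filter.2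
            ⟨Finset.mem_range.2 hvN, hvk, hv1⟩⟩))
          simp only [Sum.elim_inr, Sum.elim_inl] at h3
          rw [e0 (fun u => if u = v then (1 : ℝ) else 0)] at h3
          have h4 := e2 {v} (by simpa using hvN)
          simp only [Finset.mem_singleton, Finset.sum_singleton] at h4
          rwa [h4] at h3)
        (fun Y hY1 hY2 hY3 => by
          have hYT : Y ∈ TT := Finset.mem_filter.2 ⟨Finset.mem_powerset.2 hY1.2.1, hY1, hY2, hY3⟩
          have h3 := hσ' (Sum.inl ⟨Y, hYT⟩)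
          simp only [Sum.elim_inl] at h3
          rw [e0 (fun u => if u ∈ Y then (1 : ℝ) else 0), e2 Y (hTV Y hYT)] at h3
          exact h3)
      have h5 : ∑ v ∈ range N, μ v * σ v = ∑ v : range N, σ' v * μ v := by
        rw [e0 μ]
        exact Finset.sum_congr rfl fun v _ => mul_comm _ _
      rw [h5] at key
      exact key)
  set w : Finset ℕ → ℝ := fun Y => if h : Y ∈ TT then ω (Sum.inl ⟨Y, h⟩) else 0 with hw
  set lam : ℕ → ℝ := fun v => if h : v ∈ LL then ω (Sum.inr (Sum.inl ⟨v, h⟩)) else 0 with hlam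
  set rho : ℕ → ℝ := fun v => if h : v ∈ ZZ then ω (Sum.inr (Sum.inr ⟨v, h⟩)) else 0 with hrho
  have hw0 : ∀ Y, 0 ≤ w Y := by
    intro Y
    rw [hw]
    simp only
    split_ifs
    · exact hω0 _
    · exact le_rfl
  have hl0 : ∀ v, 0 ≤ lam v := by
    intro v
    rw [hlam]
    simp only
    split_ifs
    · exact hω0 _
    · exact le_rfl
  have hr0 : ∀ v, 0 ≤ rho v := by
    intro v
    rw [hrho]
    simp only
    split_ifs
    · exact hω0 _
    · exact le_rfl
  have hwT : ∀ Y, Y ∉ TT → w Y = 0 := fun Y hY => by rw [hw]; simp only [hY, dif_neg, not_false_iff]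
  have hlT : ∀ v, v ∉ LL → lam v = 0 := fun v hv => by
    rw [hlam]; simp only [hv, dif_neg, not_false_iff]
  have hrT : ∀ v, v ∉ ZZ → rho v = 0 := fun v hv => by
    rw [hrho]; simp only [hv, dif_neg, not_false_iff]
  have hload : ∀ v, load N w v = ∑ Y ∈ TT, if v ∈ Y then w Y else 0 := by
    intro v
    unfold load
    symm
    refine Finset.sum_subset (Finset.filter_subset _ _) fun Y _ hY => ?_
    rw [hwT Y hY, ite_self]
  have hsum : ∀ v ∈ range N, load N w v + (lam v - rho v) = μ v := by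
    intro v hv
    have h1 := (hω ⟨v, hv⟩).2 (fun h => h)
    rw [Fintype.sum_sum_type, Fintype.sum_sum_type] at h1
    simp only [Sum.elim_inl, Sum.elim_inr] at h1
    have h2 : ∑ Y : TT, (if v ∈ (Y : Finset ℕ) then (1 : ℝ) else 0) * ω (Sum.inl Y) =
        load N w v := by
      rw [hload, ← Finset.sum_coe_sort TT (fun Y => if v ∈ Y then w Y else 0)]
      refine Finset.sum_congr rfl fun Y _ => ?_
      rw [hw]
      simp only [Y.2, dif_pos]
      split_ifs <;> simp
    have h3 : ∑ u : LL, (if v = (u : ℕ) then (1 : ℝ) else 0) * ω (Sum.inr (Sum.inl u)) =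
        lam v := by
      rw [hlam]
      simp only
      split_ifs with h
      · rw [Finset.sum_eq_single (⟨v, h⟩ : LL)]
        · simp
        · intro u _ hu
          rw [if_neg, zero_mul]
          intro h4
          exact hu (Subtype.ext h4.symm)
        · intro h5; exact absurd (Finset.mem_univ _) h5
      · refine Finset.sum_eq_zero fun u _ => ?_
        rw [if_neg, zero_mul]
        intro h4
        exact h (h4 ▸ u.2)
    have h4 : ∑ u : ZZ, (if v = (u : ℕ) then (-1 : ℝ) else 0) * ω (Sum.inr (Sum.inr u)) =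
        -rho v := by
      rw [hrho]
      simp only
      split_ifs with h
      · rw [Finset.sum_eq_single (⟨v, h⟩ : ZZ)]
        · simp
        · intro u _ hu
          rw [if_neg, zero_mul]
          intro h4
          exact hu (Subtype.ext h4.symm)
        · intro h5; exact absurd (Finset.mem_univ _) h5
      · rw [neg_zero]
        refine Finset.sum_eq_zero fun u _ => ?_
        rw [if_neg, zero_mul]
        intro h4
        exact h (h4 ▸ u.2)
    rw [h2, h3, h4] at h1
    rw [← h1]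
    ring
  refine ⟨f, w, lam, hf.1, hf.2, hw0, fun Y hY => ?_, hl0, fun v hv => ?_, fun v hv => ?_,
    fun v hv hfv => ?_⟩
  · by_contra hne
    apply hY
    apply hwT
    intro h
    exact hne (Finset.mem_filter.1 h).2
  · by_contra hne
    apply hv
    apply hlT
    intro h
    have := Finset.mem_filter.1 h
    exact hne ⟨Finset.mem_range.1 this.1, this.2⟩
  · have h1 := hsum v (Finset.mem_range.2 hv)
    linarith [hr0 v]
  · have h1 := hsum v (Finset.mem_range.2 hv)
    have h2 := hrT v fun h => hfv.ne' (Finset.mem_filter.1 h).2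
    rw [h2, sub_zero] at h1
    exact h1

end Pool.Agent.Helper87K9.PS2
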