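import Pool.Agent.Helper40K9.PS2.St
import Pool.Agent.Helper87K9.PS2.Lpc

/-! # [LPW2], [TRC]: the covering problem and the traces -/

set_option autoImplicit false

namespace Pool.Agent.Helper40K9.PS2

open Finset Pool.Agent.Helper83K9.CF Pool.Agent.Helper74K9.PS

theorem lpw2 : S_LPW2 := by
  intro t k N q μ ht _ _ _ _
  have ht' : (0 : ℝ) < t := by exact_mod_cast ht
  obtain ⟨f, w, lam, hf, _, hw0, hwt, hl0, hlt, hcov, hex⟩ :=
    Pool.Agent.Helper87K9.PS2.lpc t k N q μ (fun Y => (3 : ℝ) ^ (Y.sup id)) (1 / (t : ℝ)) ht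
      (by positivity) (fun Y => by positivity)
  refine ⟨f, w, lam, ⟨⟨hf.nonneg, hf.first, hf.le⟩, hw0, hwt, hl0, fun v hv => ?_, hcov, hex⟩⟩
  obtain ⟨h1, h2, h3⟩ := hlt v hv
  exact ⟨h2, h1, by rw [h3]; positivity⟩

namespace TrcL

open Classical in
/-- sums with the traces -/
theorem sum_trc (N : ℕ) (f : ℕ → ℝ) (w g : Finset ℕ → ℝ) :
    ∑ X ∈ (range N).powerset, trc N f w X * g X =
      ∑ Y ∈ (range N).powerset, w Y * g (Y.filter (fun v => 0 < f v)) := by
  unfold trc
  simp only [Finset.sum_mul]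
  rw [Finset.sum_comm]
  refine Finset.sum_congr rfl fun Y hY => ?_
  have hm : Y.filter (fun v => 0 < f v) ∈ (range N).powerset :=
    Finset.mem_powerset.2 ((Finset.filter_subset _ _).trans (Finset.mem_powerset.1 hY))
  rw [Finset.sum_eq_single_of_mem _ hm]
  · rw [if_pos rfl]
  · intro X _ hX
    rw [if_neg (Ne.symm hX), zero_mul]

open Classical in
/-- the trace of a tight clique is tight -/
theorem tight {q : ℕ → ℕ → Prop} {k N t : ℕ} {f : ℕ → ℝ} (hf : Feas2 q k N t f) {Y : Finset ℕ}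
    (h1 : Cq q k N Y) (h2 : Y.card ≤ t) (h3 : ∑ x ∈ Y, f x = (3 : ℝ) ^ (Y.sup id)) :
    Tgt2 q k N t f (Y.filter (fun v => 0 < f v)) := by
  have e1 : ∑ x ∈ Y.filter (fun v => 0 < f v), f x = (3 : ℝ) ^ (Y.sup id) := by
    rw [← h3]
    refine Finset.sum_subset (Finset.filter_subset _ _) fun x hx hx2 => ?_
    have : ¬ 0 < f x := fun h => hx2 (Finset.mem_filter.2 ⟨hx, h⟩)
    exact le_antisymm (not_lt.1 this) (hf.nonneg x)
  have hcq : Cq q k N (Y.filter (fun v => 0 < f v)) := by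
    refine ⟨?_, (Finset.filter_subset _ _).trans h1.2.1, ?_⟩
    · by_contra hne
      rw [Finset.not_nonempty_iff_eq_empty] at hne
      rw [hne, Finset.sum_empty] at e1
      have : (0 : ℝ) < (3 : ℝ) ^ (Y.sup id) := by positivity
      linarith
    · intro x hx y hy hxy
      exact h1.2.2 x (Finset.mem_filter.1 hx).1 y (Finset.mem_filter.1 hy).1 hxy
  have hc : (Y.filter (fun v => 0 < f v)).card ≤ t :=
    (Finset.card_le_card (Finset.filter_subset _ _)).trans h2
  refine ⟨hcq, hc, fun v hv => (Finset.mem_filter.1 hv).2, ?_⟩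
  have h4 := hf.le _ hcq hc
  have h5 : (Y.filter (fun v => 0 < f v)).sup id ≤ Y.sup id :=
    Finset.sup_mono (Finset.filter_subset _ _)
  have h6 : (3 : ℝ) ^ ((Y.filter (fun v => 0 < f v)).sup id) ≤ (3 : ℝ) ^ (Y.sup id) :=
    pow_le_pow_right₀ (by norm_num) h5
  exact le_antisymm h4 (h6.trans e1.ge)

end TrcL

open TrcL

theorem trc_ : S_TRC := by
  classical
  intro t k N q μ f w lam h
  refine ⟨⟨fun X => ?_, fun X hX => ?_⟩, fun v _ hfv => ?_, ?_⟩
  · unfold trc
    refine Finset.sum_nonneg fun Y _ => ?_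
    split_ifs
    · exact h.w0 Y
    · exact le_rfl
  · unfold trc at hX
    obtain ⟨Y, _, hY2⟩ := Finset.exists_ne_zero_of_sum_ne_zero hX
    split_ifs at hY2 with h1
    · rw [← h1]
      obtain ⟨a, b, c⟩ := h.wt Y hY2
      convert tight h.feas a b c
    · exact absurd rfl hY2
  · have e1 : ∀ W : Finset ℕ → ℝ, load N W v =
        ∑ X ∈ (range N).powerset, W X * (if v ∈ X then (1 : ℝ) else 0) := by
      intro W
      unfold load
      refine Finset.sum_congr rfl fun X _ => ?_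
      split_ifs <;> simp
    rw [e1, e1, sum_trc]
    refine Finset.sum_congr rfl fun Y _ => ?_
    congr 1
    have e2 : (v ∈ Y.filter (fun v => 0 < f v)) ↔ v ∈ Y := by
      rw [Finset.mem_filter]
      exact ⟨fun h => h.1, fun h => ⟨h, hfv⟩⟩
    simp only [e2]
  · unfold dfc
    have := sum_trc N f w (fun X => (t : ℝ) - X.card)
    convert this

end Pool.Agent.Helper40K9.PS2
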